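import Mathlib
import Pool.Agent.W223.AC.StmsP

/-!
Heights under a linear fractional map over a number field.
-/

set_option autoImplicit false

namespace Pool.Agent.W736.AC

open Height

theorem t : Pool.Agent.W223.AC.StmtMOBH := by
  intro K _ _ a ha
  set c : K := ((a 1 : K) - a 2) / ((a 1 : K) - a 0) with hc
  set d : K := (a 2 : K) - a 0 with hd
  have inj : ∀ i j, i ≠ j → (a i : K) - a j ≠ 0 := by
    intro i j hij h
    have h1 : (a i : K) = a j := sub_eq_zero.1 h
    exact hij (ha (by exact_mod_cast h1))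
  have h12 := inj 1 2 (by decide)
  have h10 := inj 1 0 (by decide)
  have h20 := inj 2 0 (by decide)
  have hc0 : c ≠ 0 := div_ne_zero h12 h10
  have hd0 : d ≠ 0 := h20
  have hW : (0 : ℝ) ≤ totalWeight K * Real.log 2 :=
    mul_nonneg (Nat.cast_nonneg _) (Real.log_nonneg (by norm_num))
  refine ⟨2 * (totalWeight K * Real.log 2) + logHeight₁ c + logHeight₁ d + logHeight₁ (a 2 : K),
    ?_, ?_⟩
  · have := zero_le_logHeight₁ c
    have := zero_le_logHeight₁ d
    have := zero_le_logHeight₁ (a 2 : K)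
    linarith
  · intro x hx
    have hx2 : x - a 2 ≠ 0 := sub_ne_zero.2 (hx 2)
    set y : K := Pool.Agent.W223.AC.mob a x with hy
    have e1 : y = c * (1 + d * (x - a 2)⁻¹) := by
      rw [hy, hc, hd]
      unfold Pool.Agent.W223.AC.mob
      field_simp
      ring
    have e2 : x = a 2 + d * (y * c⁻¹ - 1)⁻¹ := by
      have : y * c⁻¹ - 1 = d * (x - a 2)⁻¹ := by
        rw [e1]; field_simp; ring
      rw [this, mul_inv, inv_inv, ← mul_assoc, mul_inv_cancel₀ hd0]; ring
    change logHeight₁ x ≤ logHeight₁ y + _ ∧ logHeight₁ y ≤ logHeight₁ x + _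
    constructor
    · have k1 := logHeight₁_add_le (a 2 : K) (d * (y * c⁻¹ - 1)⁻¹)
      have k2 := logHeight₁_mul_le d (y * c⁻¹ - 1)⁻¹
      rw [logHeight₁_inv] at k2
      have k3 := logHeight₁_sub_le (y * c⁻¹) 1
      rw [logHeight₁_one] at k3
      have k4 := logHeight₁_mul_le y c⁻¹
      rw [logHeight₁_inv] at k4
      rw [← e2] at k1
      linarith
    · have k1 := logHeight₁_mul_le c (1 + d * (x - a 2)⁻¹)
      have k2 := logHeight₁_add_le 1 (d * (x - a 2)⁻¹)
      rw [logHeight₁_one] at k2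
      have k3 := logHeight₁_mul_le d (x - a 2)⁻¹
      rw [logHeight₁_inv] at k3
      have k4 := logHeight₁_sub_le x (a 2 : K)
      rw [← e1] at k1
      linarith

end Pool.Agent.W736.AC
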